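import Mathlib
import Pool.Agent.H.MP_c9c571_nt.B
import Pool.Agent.H.MP_c9c571_nt.D

open Finset Polynomial

namespace Pool.Agent.Results.MP_c9c571_nt.Yes

noncomputable def q : RatFunc ℚ := RatFunc.X

def c (k : ℕ) : ℚ := (∏ j ∈ range k, (1 / 2 + j : ℚ)) ^ 3 / (k.factorial : ℚ) ^ 3

noncomputable def a (k : ℕ) : RatFunc ℚ :=
  q ^ k * ((1 + q ^ (4 * k + 1)) / (1 + q)) *
    ∏ j ∈ range k, ((1 - q ^ (4 * j + 2)) / (1 - q ^ (4 * j + 4))) ^ 3

noncomputable def R (n : ℕ) : RatFunc ℚ :=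
  q ^ ((1 - (n : ℤ)) / 2) * (∑ i ∈ range n, q ^ (2 * i)) *
    ∏ j ∈ range ((n - 1) / 2), (1 - q ^ (4 * j + 3)) / (1 - q ^ (4 * j + 5))

open Pool.Agent.H.MP_4d1f21_nt Pool.Agent.H.MP_c9c571_nt

theorem a_eq (k : ℕ) : a k = q ^ k * (1 + q ^ (4 * k + 1)) * (1 + q)⁻¹ * hh (q ^ 2) k ^ 3 := by
  rw [a, hh, ← prod_div_distrib, ← prod_pow, div_eq_mul_inv, ← mul_assoc]
  congr 1
  refine prod_congr rfl fun j _ => ?_
  congr 3 <;> ring

theorem R_eq (s : ℕ) : R (2 * s + 1) = (1 + q)⁻¹ * ∑ k ∈ range (s + 1), F1 q (q ^ (4 * s + 2)) k := by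
  have hq : q ≠ 0 := RatFunc.X_ne_zero
  have h : ∀ j, 0 < j → 1 - q ^ j ≠ 0 := fun j hj => qne hj
  have h1 := F1_sum hq h s (s + 1) (by omega)
  have h2 : (∑ i ∈ range (2 * s + 1), q ^ (2 * i)) * (1 - q ^ 2) = 1 - q ^ (4 * s + 2) := by
    simp only [pow_mul]; rw [geom_sum_mul_neg]; ring
  have h3 : 1 - q ^ 2 ≠ 0 := h 2 (by omega)
  have h4 : 1 + q ≠ 0 := fun h0 => h3 (by linear_combination (1 - q) * h0)
  have h5 : ∏ j ∈ range s, (1 - q ^ (4 * j + 5)) ≠ 0 := prod_ne_zero_iff.2 fun j _ => h _ (by omega)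
  have h6 : q ^ s ≠ 0 := pow_ne_zero _ hq
  rw [R, show (1 - ((2 * s + 1 : ℕ) : ℤ)) / 2 = -(s : ℤ) by omega, zpow_neg, zpow_natCast,
    show (2 * s + 1 - 1) / 2 = s by omega, prod_div_distrib]
  rw [← h2] at h1
  field_simp
  apply mul_left_cancel₀ h3
  linear_combination -h1

theorem alg {A : Type*} [CommRing A] (x a b c N w Uk Ud lk ld L : A) (hc : c ^ 2 = a * b)
    (hN : N = c ^ 4 * x) (he : (N - 1) ^ 2 = 0) (H1 : (N - 1) * (a ^ 2 * Uk) = (N - 1) * (c ^ 2 * Ud))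
    (H2 : (N - 1) * (lk + ld - L) = 0) :
    a ^ 6 * ((N - 1) * (a * w * Uk ^ 3 * (2 * (a ^ 4 * x - 1) + 6 * (1 + a ^ 4 * x) * (2 * lk - L)))
      + (N - 1) * (b * w * Ud ^ 3 * (2 * (b ^ 4 * x - 1) + 6 * (1 + b ^ 4 * x) * (2 * ld - L)))) = 0 := by
  have p1 : a ^ 5 * c ^ 6 * x = a ^ 6 * b * N := by
    rw [hN]; linear_combination a ^ 5 * c ^ 4 * x * hc
  have p2 : a ^ 6 * b ^ 5 * x = a * c ^ 6 * N := by
    rw [hN, show c ^ 6 = (c ^ 2) ^ 3 by ring, show c ^ 4 = (c ^ 2) ^ 2 by ring, hc]; ring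
  linear_combination (a * w * (2 * (a ^ 4 * x - 1) + 6 * (1 + a ^ 4 * x) * (2 * lk - L))
      * ((a ^ 2 * Uk) ^ 2 + a ^ 2 * Uk * (c ^ 2 * Ud) + (c ^ 2 * Ud) ^ 2)) * H1
    + (w * Ud ^ 3 * a ^ 6 * b * 12 * (1 + b ^ 4 * x)) * H2
    + (N - 1) * w * Ud ^ 3 * (2 + 6 * (2 * lk - L)) * p1
    + (N - 1) * w * Ud ^ 3 * (2 - 6 * (2 * lk - L)) * p2
    + w * Ud ^ 3 * ((2 + 6 * (2 * lk - L)) * a ^ 6 * b + (2 - 6 * (2 * lk - L)) * a * c ^ 6) * he

theorem result (m n : ℕ) (_hm : 1 ≤ m) (h1 : 1 < n) (hn : n % 4 = 1) :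
    cyclotomic n ℚ ^ 2 ∣
        (∑ k ∈ range (m * n), a k - R n * RatFunc.C (∑ k ∈ range m, c k)).num ∧
      IsCoprime (∑ k ∈ range (m * n), a k - R n * RatFunc.C (∑ k ∈ range m, c k)).denom
        (cyclotomic n ℚ ^ 2) := by
  obtain ⟨v, hv⟩ : ∃ v, n = 2 * (2 * v) + 1 := ⟨n / 4, by omega⟩
  have := nontriv (n := n) (e := 2) (by omega) (by omega)
  set P := cyclotomic n ℚ ^ 2
  set x := AdjoinRoot.root P with hx
  set φ := algebraMap ℚ (AdjoinRoot P)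
  have he : (x ^ n - 1) ^ 2 = 0 := eps_pow n 2
  have hun : ∀ j, ¬ n ∣ j → IsUnit (1 - x ^ j) := fun j hj => unit_root 2 (by omega) hj
  have hcop : Nat.Coprime n 2 := Nat.coprime_two_right.2 (Nat.odd_iff.2 (by omega))
  obtain ⟨iv, hiv⟩ := ex_iv (x ^ 2) n fun j hj => by
    rw [← pow_mul]; exact hun _ fun h => hj (hcop.dvd_of_dvd_mul_left h)
  have e2 : (x ^ 2) ^ n - 1 = 2 * (x ^ n - 1) := by linear_combination he
  have he2 : ((x ^ 2) ^ n - 1) ^ 2 = 0 := by rw [e2]; linear_combination 4 * he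
  have hf : φ (1 / 2) * 2 = 1 := by
    rw [show (2 : AdjoinRoot P) = φ 2 from (map_ofNat _ 2).symm, ← map_mul]; norm_num
  obtain ⟨w, hw⟩ : ∃ w, (1 + x) * w = 1 := ⟨(1 - x) * iv 1, by
    linear_combination hiv 1 (nd0 (by omega) h1)⟩
  have rq : Rel P q x := Rel.X
  have hK : ∀ j, 0 < j → 1 - (q ^ 2) ^ j ≠ 0 := fun j hj => by
    rw [← pow_mul]; exact qne (by omega)
  set α : ℕ → AdjoinRoot P := fun k =>
    x ^ k * (1 + x ^ (4 * k + 1)) * w * U (x ^ 2) iv n (2 * k) ^ 3 with hα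
  set β : ℕ → AdjoinRoot P := fun k => (x ^ n - 1) * (x ^ k * w * U (x ^ 2) iv n (2 * k) ^ 3 *
    (2 * ((x ^ k) ^ 4 * x - 1) + 6 * (1 + (x ^ k) ^ 4 * x) *
      (2 * lam (x ^ 2) iv (2 * k) - lam (x ^ 2) iv (2 * (2 * v))))) with hβ
  have hxu : IsUnit x := IsUnit.of_mul_eq_one (x ^ (4 * v) * (2 - x ^ n)) (by
    rw [← mul_assoc, ← pow_succ', show 4 * v + 1 = n by omega]; linear_combination -he)
  have hb : ∑ k ∈ range (2 * v + 1), β k = 0 := anti β _ fun k d hkd => by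
    have H1 := U_refl hv he2 hiv v k d rfl hkd
    have H2 := lam_refl hv he2 hiv k d hkd
    rw [e2] at H1 H2
    refine (((hxu.pow k).pow 6).mul_right_eq_zero).1 ?_
    refine alg x (x ^ k) (x ^ d) (x ^ v) (x ^ n) w _ _ _ _ _ ?_ ?_ he ?_ ?_
    · rw [← pow_add, hkd]; ring
    · rw [hv]; ring
    · linear_combination φ (1 / 2) * H1 - ((x ^ n - 1) * ((x ^ k) ^ 2 * U (x ^ 2) iv n (2 * k))
        - (x ^ n - 1) * ((x ^ v) ^ 2 * U (x ^ 2) iv n (2 * d))) * hf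
    · linear_combination φ (1 / 2) * H2 - (x ^ n - 1) * (lam (x ^ 2) iv (2 * k)
        + lam (x ^ 2) iv (2 * d) - lam (x ^ 2) iv (2 * (2 * v))) * hf
  have ra : ∀ K z, Rel P (hh (q ^ 2) K) z →
      Rel P (a K) (x ^ K * (1 + x ^ (4 * K + 1)) * w * z ^ 3) := fun K z hz => by
    rw [a_eq]
    exact (((rq.pow _).mul (Rel.one.add (rq.pow _))).mul ((Rel.one.add rq).inv hw)).mul (hz.pow 3)
  have blk : ∀ r, Rel P (∑ k ∈ range n, a (n * r + k))
      (φ (c r) * ∑ k ∈ range (2 * v + 1), α k) := by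
    intro r
    have hc : φ (c r) = φ (gam r) ^ 3 := by rw [← map_pow, ← gam_eq, div_pow, c]
    have hr : φ (r / 2) * 2 = r := by
      rw [show (2 : AdjoinRoot P) = φ 2 from (map_ofNat _ 2).symm, ← map_mul, ← map_natCast φ]
      congr 1; ring
    have lo : Rel P (∑ k ∈ range (2 * v + 1), a (n * r + k))
        (∑ k ∈ range (2 * v + 1), φ (gam r) ^ 3 * (α k + r * β k)) := by
      refine Rel.sum _ fun k hk => ?_
      convert ra _ _ (rel_lo (rq.pow 2) hK hv he2 hiv r k (by have := mem_range.1 hk; omega)) using 1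
      rw [e2, pow_add, pw he, show 4 * (n * r + k) + 1 = n * (4 * r) + (4 * k + 1) by ring, pow_add,
        pw he]
      simp only [hα, hβ]
      push_cast
      generalize x ^ n - 1 = e at he
      have hcube : ∀ D : AdjoinRoot P, (1 + 2 * e * D) ^ 3 = 1 + 6 * e * D := fun D => by
        linear_combination (12 * D ^ 2 + 8 * e * D ^ 3) * he
      rw [mul_pow, hcube]
      set D := 2 * lam (x ^ 2) iv (2 * k) - lam (x ^ 2) iv (2 * (2 * v))
      linear_combination φ (gam r) ^ 3 * U (x ^ 2) iv n (2 * k) ^ 3 * x ^ k * w *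
        (3 * e * (1 + x ^ (4 * k + 1)) * hr - (4 * r ^ 2 * x ^ (4 * k + 1) + 6 * (r * D - φ (r / 2)) *
          (r * (1 + x ^ (4 * k + 1)) + 4 * r * x ^ (4 * k + 1) + 4 * r ^ 2 * e * x ^ (4 * k + 1))) * he)
    have hi : Rel P (∑ k ∈ range (2 * v), a (n * r + (2 * v + 1 + k))) (∑ k ∈ range (2 * v), 0) := by
      refine Rel.sum _ fun k hk => ?_
      obtain ⟨z, hz⟩ := rel_hi (rq.pow 2) hK hv he2 hiv r (2 * v + 1 + k) (by omega)
        (by have := mem_range.1 hk; omega)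
      convert ra _ _ hz using 1
      rw [mul_pow, pow_succ _ 2, he2]; ring
    conv => arg 2; rw [show range n = range (2 * v + 1 + 2 * v) by congr 1; omega, sum_range_add]
    convert lo.add hi using 1
    rw [← mul_sum, sum_add_distrib, ← mul_sum, hb, hc]; simp
  have rR : Rel P (R n) (∑ k ∈ range (2 * v + 1), α k) := by
    have : R n = (1 + q)⁻¹ * ∑ k ∈ range (2 * v + 1), F1 q (q ^ (4 * (2 * v) + 2)) k := by
      rw [← R_eq, ← hv]
    rw [this, mul_sum]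
    refine Rel.sum _ fun k hk => ?_
    have hY : x ^ (4 * (2 * v) + 2) = (x ^ 2) ^ n := by rw [hv]; ring
    have rY : Rel P (q ^ (4 * (2 * v) + 2)) ((x ^ 2) ^ n) := hY ▸ rq.pow _
    set Y := (x ^ 2) ^ n
    have rp : Rel P (F1 q (q ^ (4 * (2 * v) + 2)) k) (x ^ k * (1 + x ^ (4 * k + 1)) *
        ∏ j ∈ range k, ((1 - (x ^ 2) ^ (2 * j + 1)) * iv (2 * j + 1 + 1)) ^ 3) := by
      refine ((rq.pow _).mul (Rel.one.add (rq.pow _))).mul (Rel.prod _ fun j hj => ?_)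
      have i1 := hiv (2 * j + 1 + 1) (nd0 (by omega)
        (by have := mem_range.1 hj; have := mem_range.1 hk; omega))
      rw [show (x ^ 2) ^ (2 * j + 1 + 1) = x ^ (4 * j + 4) by ring] at i1
      rw [div_eq_mul_inv, show (x ^ 2) ^ (2 * j + 1) = x ^ (4 * j + 2) by ring]
      convert (((rY.sub (rq.pow (4 * j + 2))).mul (Rel.one.sub (rY.mul (rq.pow (4 * j + 2))))).mul
        (Rel.one.sub (rq.pow (4 * j + 2)))).mul ((((rY.sub (rq.pow (4 * j + 4))).mul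
        (Rel.one.sub (rY.mul (rq.pow (4 * j + 4))))).mul (Rel.one.sub (rq.pow (4 * j + 4)))).inv
        (b := (2 - Y) * iv (2 * j + 1 + 1) ^ 3) ?_) using 1
      · generalize x ^ (4 * j + 2) = z
        linear_combination iv (2 * j + 1 + 1) ^ 3 * (1 - z) * ((1 - z) ^ 2 + z * (2 - Y)) * he2
      · generalize x ^ (4 * j + 4) = z at i1
        linear_combination (((1 - z) * iv (2 * j + 1 + 1)) ^ 2 + (1 - z) * iv (2 * j + 1 + 1) + 1) * i1
          - iv (2 * j + 1 + 1) ^ 3 * (1 - z) * ((1 - z) ^ 2 + z * (2 - Y)) * he2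
    convert ((Rel.one.add rq).inv hw).mul rp using 1
    simp only [hα]
    rw [prod_pow, ← U_prod hv k (by have := mem_range.1 hk; omega)]; ring
  apply Rel.fin
  rw [sum_blocks]
  convert (Rel.sum (range m) fun r _ => blk r).sub (rR.mul (Rel.rat _)) using 1
  rw [← sum_mul, ← map_sum]; ring

end Pool.Agent.Results.MP_c9c571_nt.Yes
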